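import Pool.Agent.RFO.Defs
import Pool.Agent.FOR.Bit

/-!
MODULE RFO-Bit.  The points have polynomial bit length (models `Pool/Agent/ROQ/Bit.lean`,
`Pool/Agent/TXL/Bit.lean`).

PLAN.  `FOR.vb_Ps`: the first summand is at most `(2 * B + 2) ^ (sz L ^ 250)`, `L = lev (max n (w + 1))`, and
`sz L ^ 250 ≤ 2 ^ 4000 * (n + w + 2) ^ 500` (`FOR.sz_lev_le`, as in `TXL/Bit.lean`; `i < n ≤ sz L` by
`FOR.le_sz_lev`).  The second is at most `B * ((B + n) ^ (n - 1)) ^ p ≤ (B + n + 1) ^ (p * n + 1)`.  With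
`W = 2 * B + n + 2` the sum is at most `W ^ E + W ^ (p * n + 1) ≤ W ^ (E + p * n + 2)`.
Generalize the exponents before `omega` (never let `2 ^ 4000` be evaluated).
-/

set_option autoImplicit false

namespace Pool.Agent.RFO

open Pool.Agent.FOR (lev)

private theorem RFOBit_pw_le {n B W : ℕ} (t : ℕ) (ht : t ≤ B) (hW : B + n ≤ W) (i : Fin n) :
    Pool.Agent.ROL.pw t i ≤ W ^ (n - 1) := by
  unfold Pool.Agent.ROL.pw
  refine (Finset.prod_le_pow_card _ _ W ?_).trans ?_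
  · intro j _
    have := j.2
    simp only [Nat.cast_id]
    omega
  · rw [Finset.card_erase_of_mem (Finset.mem_univ i), Finset.card_univ, Fintype.card_fin]

private theorem RFOBit_pq_le {n p B W : ℕ} (t : Fin p → ℕ) (ht : ∀ s, t s ≤ B) (hW : B + n ≤ W) (i : Fin n) :
    Pool.Agent.ROQ.pq t i ≤ W ^ ((n - 1) * p) := by
  unfold Pool.Agent.ROQ.pq
  refine (Finset.prod_le_pow_card _ _ (W ^ (n - 1)) fun s _ => RFOBit_pw_le (t s) (ht s) hW i).trans ?_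
  rw [Finset.card_univ, Fintype.card_fin, ← pow_mul]

theorem bit_ptsO (n w p B : ℕ) (x : Fin n → ℕ) (hx : x ∈ ptsO n (lev (max n (w + 1))) p B)
    (i : Fin n) :
    x i ≤ (2 * B + n + 2) ^ (2 ^ 4000 * (n + w + 2) ^ 500 + p * n + 2) := by
  unfold ptsO at hx
  obtain ⟨q, hq, rfl⟩ := Finset.mem_image.1 hx
  rw [Finset.mem_product, Finset.mem_product, Fintype.mem_piFinset, Finset.mem_range, Finset.mem_range] at hq
  obtain ⟨⟨h1, h2⟩, h3⟩ := hq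
  have h3' : ∀ j, q.2 j ≤ B := fun j => Nat.lt_succ_iff.1 (Finset.mem_range.1 (h3 j))
  show Pool.Agent.FOR.Ps (lev (max n (w + 1))) q.1.1 q.1.2 (i : ℕ) +
    q.2 0 * Pool.Agent.ROQ.pq (fun l : Fin p => q.2 l.succ) i ≤ _
  have hsz := Pool.Agent.FOR.le_sz_lev (max n (w + 1))
  have hb : (i : ℕ) < Pool.Agent.FOR.sz (lev (max n (w + 1))) := by
    have := le_max_left n (w + 1)
    have := i.2
    omega
  have h4 := Pool.Agent.FOR.vb_Ps (lev (max n (w + 1))) i hb q.1.1 q.1.2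
  have hsz2 : Pool.Agent.FOR.sz (lev (max n (w + 1))) ^ 250 ≤ 2 ^ 4000 * (n + w + 2) ^ 500 := by
    refine (Nat.pow_le_pow_left (Pool.Agent.FOR.sz_lev_le (max n (w + 1))) 250).trans ?_
    rw [mul_pow, ← pow_mul, ← pow_mul]
    refine Nat.mul_le_mul_left _ (Nat.pow_le_pow_left ?_ _)
    have := max_le (a := n) (b := w + 1) (c := n + (w + 1)) (Nat.le_add_right n (w + 1)) (Nat.le_add_left (w + 1) n)
    omega
  obtain ⟨W, hW⟩ : ∃ W, W = 2 * B + n + 2 := ⟨_, rfl⟩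
  rw [← hW]
  obtain ⟨s, hs⟩ : ∃ s, s = Pool.Agent.FOR.sz (lev (max n (w + 1))) ^ 250 := ⟨_, rfl⟩
  rw [← hs] at h4 hsz2
  obtain ⟨A, hA⟩ : ∃ A, A = 2 ^ 4000 * (n + w + 2) ^ 500 := ⟨_, rfl⟩
  rw [← hA] at hsz2 ⊢
  have h5 : Pool.Agent.FOR.Ps (lev (max n (w + 1))) q.1.1 q.1.2 (i : ℕ) ≤ W ^ s := by
    have h6 : (q.1.1 + q.1.2 + 2) ^ s ≤ W ^ s := Nat.pow_le_pow_left (by omega) _
    omega
  have h7 : Pool.Agent.ROQ.pq (fun l : Fin p => q.2 l.succ) i ≤ W ^ ((n - 1) * p) :=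
    RFOBit_pq_le _ (fun s => h3' _) (by omega) i
  have h8 : q.2 0 * Pool.Agent.ROQ.pq (fun l : Fin p => q.2 l.succ) i ≤ W ^ ((n - 1) * p + 1) := by
    have h9 : q.2 0 ≤ W := (h3' 0).trans (by omega)
    calc q.2 0 * Pool.Agent.ROQ.pq (fun l : Fin p => q.2 l.succ) i ≤ W * W ^ ((n - 1) * p) := Nat.mul_le_mul h9 h7
      _ = W ^ ((n - 1) * p + 1) := by rw [← pow_succ']
  have h10 : (n - 1) * p ≤ p * n := by
    rw [Nat.mul_comm p n]
    exact Nat.mul_le_mul_right _ (Nat.sub_le _ _)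
  obtain ⟨Q, hQ⟩ : ∃ Q, Q = p * n := ⟨_, rfl⟩
  obtain ⟨Q', hQ'⟩ : ∃ Q', Q' = (n - 1) * p := ⟨_, rfl⟩
  rw [← hQ] at h10 ⊢
  rw [← hQ'] at h10 h8
  have e1 : W ^ (Q' + 1) ≤ W ^ (A + Q + 1) := Nat.pow_le_pow_right (by omega) (by omega)
  have e2 : W ^ s ≤ W ^ (A + Q + 1) := Nat.pow_le_pow_right (by omega) (by omega)
  have e3 : W ^ (A + Q + 2) = W ^ (A + Q + 1) * W := pow_succ _ _
  rw [e3]
  have e4 : W ^ (A + Q + 1) * 2 ≤ W ^ (A + Q + 1) * W := Nat.mul_le_mul_left _ (by omega)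
  have e5 := h8.trans e1
  have e6 := h5.trans e2
  omega

end Pool.Agent.RFO
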