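import Pool.Agent.ROQ.Defs
import Pool.Agent.FOR.Defs

/-!
Project RFO (MP_e2be99_lc): read-once formulas of any depth over polynomials all of whose flattenings
have rank at most `w` (read-once programs in any order).  `Ps`, `lev` are those of `Pool.Agent.FOR`,
`RO`, `ext`, `pq` those of `Pool.Agent.ROQ`: `pq z i = ∏_s ∏_{j ≠ i} (z_s + j)`.
-/

set_option autoImplicit false

namespace Pool.Agent.RFO

open Pool.Agent.FOR (Ps lev)
open Pool.Agent.ROQ (pq)

/-- Bound for the total degree of the coordinates of the generator. -/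
def degO (n w p : ℕ) : ℕ := 2 ^ 3840 * (n + w + 2) ^ 480 + p * n + 2

/-- The points `Ps_i(t_0, t_1) + t_2 ∏_{s < p} ∏_{j ≠ i} (t_(3+s) + j)` with parameters in
`{0, …, B}`. -/
def ptsO (n L p B : ℕ) : Finset (Fin n → ℕ) :=
  ((Finset.range (B + 1) ×ˢ Finset.range (B + 1)) ×ˢ
    (Fintype.piFinset fun _ : Fin (p + 1) => Finset.range (B + 1))).image
    fun a i => Ps L a.1.1 a.1.2 (i : ℕ) + a.2 0 * pq (fun l : Fin p => a.2 l.succ) i

/-- The points for degree `D`. -/
def pointsO (n w p D : ℕ) : Finset (Fin n → ℕ) := ptsO n (lev (max n (w + 1))) p (D * degO n w p)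

end Pool.Agent.RFO
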