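import Pool.Agent.RFO.Defs
import Pool.Agent.TWX.Fin
import Pool.Agent.ROQ.Dg

/-!
MODULE RFO-Dg.  Degrees of the coordinates and the grid of points (model `Pool/Agent/ROQ/Dg.lean`,
`Pool/Agent/TXL/Dg.lean`).

PLAN.  The coordinate `i` of `ext` has total degree at most `degO n w p`: `Ps _ (X 0) (X 1) i` has total
degree at most `sz L ^ 240 + 1 ≤ 2 ^ 3840 * (n + w + 2) ^ 480 + 1` (`tot_Ps`, `sz_pow_le'` in
`TXL/Dg.lean`, private: copy; `L = lev (max n (w + 1))`), `rename` does not increase it, and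
`X (inr 0) * pq _ i` has total degree at most `1 + p * (n - 1)` (as in `ROQ/Dg.lean`).  Then
`TWX.small_ne` with `B = D * degO n w p` and `FOR.aeval_le` as in `ROQ.gridR`; the value of the coordinate
at natural parameters is the cast of the natural number in `ptsO` (`FOR.map_Ps` for `eval` and for
`Nat.castRingHom`, `eval_rename`, `ROQ.map_pq`).  `card_ptsO`: as `ROQ.card_ptsR`.
-/

set_option autoImplicit false

namespace Pool.Agent.RFO

open MvPolynomial
open Pool.Agent.FOR (Ps lev)
open Pool.Agent.ROQ (ext pq)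

private theorem rfoDg_tot (R : Type*) [CommSemiring R] (σ : Type*) :
    FOR.Dg (fun p : MvPolynomial σ R => p.totalDegree) where
  add := fun x y => totalDegree_add x y
  mul := fun x y => totalDegree_mul x y
  nat := fun n => by
    have h : ((n : ℕ) : MvPolynomial σ R) = C (n : R) := (map_natCast C n).symm
    show totalDegree ((n : ℕ) : MvPolynomial σ R) = 0
    rw [h]
    exact totalDegree_C _

private theorem rfoDg_sz (m : ℕ) : FOR.sz (lev m) ^ 240 ≤ 2 ^ 3840 * (m + 1) ^ 480 := by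
  refine (Nat.pow_le_pow_left (FOR.sz_lev_le m) 240).trans (le_of_eq ?_)
  rw [mul_pow, ← pow_mul, ← pow_mul]

private theorem rfoDg_Ps (K : Type*) [Field K] {σ : Type*} (a b : σ) (L : ℕ) {i : ℕ}
    (hi : i < FOR.sz L) :
    (Ps L (X a) (X b) i : MvPolynomial σ K).totalDegree ≤ FOR.sz L ^ 240 + 1 := by
  have h := FOR.dg_Ps (rfoDg_tot K σ) L i hi (X a) (X b)
  refine h.trans ?_
  have h0 : (X a : MvPolynomial σ K).totalDegree = 1 := totalDegree_X a
  have h1 : (X b : MvPolynomial σ K).totalDegree = 1 := totalDegree_X b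
  show FOR.sz L ^ 240 * (X a : MvPolynomial σ K).totalDegree +
    (X b : MvPolynomial σ K).totalDegree ≤ _
  rw [h0, h1, mul_one]

private theorem rfoDg_pw (F : Type*) [Field F] {σ : Type*} (b : σ) {n : ℕ} (i : Fin n) :
    (ROL.pw (X b) i : MvPolynomial σ F).totalDegree ≤ n := by
  unfold ROL.pw
  refine (totalDegree_finsetProd _ _).trans ?_
  have h2 : ∑ j ∈ Finset.univ.erase i, (X b + ((j : ℕ) : MvPolynomial σ F)).totalDegree ≤
      ∑ j ∈ Finset.univ.erase i, 1 := by
    refine Finset.sum_le_sum fun j _ => ?_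
    refine (totalDegree_add _ _).trans (max_le ?_ ?_)
    · exact le_of_eq (totalDegree_X b)
    · have h3 := (rfoDg_tot F σ).nat (j : ℕ)
      have h4 : (((j : ℕ) : MvPolynomial σ F)).totalDegree = 0 := h3
      omega
  refine h2.trans ?_
  rw [Finset.sum_const, smul_eq_mul, mul_one, Finset.card_erase_of_mem (Finset.mem_univ i),
    Finset.card_univ, Fintype.card_fin]
  omega

private theorem rfoDg_pq (F : Type*) [Field F] {σ : Type*} (a : σ) {n p : ℕ} (b : Fin p → σ)
    (i : Fin n) :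
    (X a * pq (fun s => X (b s)) i : MvPolynomial σ F).totalDegree ≤ 1 + p * n := by
  have h1 : (pq (fun s => X (b s)) i : MvPolynomial σ F).totalDegree ≤ p * n := by
    unfold pq
    refine (totalDegree_finsetProd _ _).trans ?_
    refine (Finset.sum_le_sum fun s _ => rfoDg_pw F (b s) i).trans (le_of_eq ?_)
    rw [Finset.sum_const, smul_eq_mul, Finset.card_univ, Fintype.card_fin]
  refine (totalDegree_mul _ _).trans ?_
  have h2 : (X a : MvPolynomial σ F).totalDegree = 1 := totalDegree_X a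
  omega

private theorem rfoDg_ext (F : Type*) [Field F] (n w p : ℕ) (i : Fin n) :
    (ext p (fun i : Fin n =>
      (Ps (lev (max n (w + 1))) (X 0) (X 1) (i : ℕ) : MvPolynomial (Fin 2) F)) i).totalDegree ≤
      degO n w p := by
  have hi : (i : ℕ) < FOR.sz (lev (max n (w + 1))) :=
    i.2.trans_le ((le_max_left _ _).trans (FOR.le_sz_lev _))
  have h1 := rfoDg_sz (max n (w + 1))
  have h2 : (max n (w + 1) + 1) ^ 480 ≤ (n + w + 2) ^ 480 := by
    refine Nat.pow_le_pow_left ?_ _
    have h4 : max n (w + 1) ≤ n + w + 1 := max_le (by omega) (by omega)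
    omega
  have h3 := h1.trans (Nat.mul_le_mul_left (2 ^ 3840) h2)
  have h5 := rfoDg_Ps F (0 : Fin 2) 1 _ hi
  unfold ROQ.ext degO
  refine (totalDegree_add _ _).trans (max_le ?_ ?_)
  · refine ((totalDegree_rename_le _ _).trans h5).trans ?_
    omega
  · refine (rfoDg_pq F _ _ i).trans ?_
    omega

private theorem rfoDg_eval (F : Type*) [Field F] (n L p : ℕ) (s : Fin 2 ⊕ Fin (p + 1) → ℕ)
    (i : Fin n) :
    eval (fun j => ((s j : ℕ) : F))
        (ext p (fun i : Fin n => (Ps L (X 0) (X 1) (i : ℕ) : MvPolynomial (Fin 2) F)) i) =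
      ((Ps L (s (Sum.inl 0)) (s (Sum.inl 1)) (i : ℕ) +
        s (Sum.inr 0) * pq (fun l : Fin p => s (Sum.inr l.succ)) i : ℕ) : F) := by
  unfold ROQ.ext
  have e1 := FOR.map_Ps (eval (fun a : Fin 2 => ((s (Sum.inl a) : ℕ) : F))) L
  have e2 := FOR.map_Ps (Nat.castRingHom F) L
  simp only [eq_natCast] at e2
  have h2 : eval (fun j => ((s j : ℕ) : F)) (rename Sum.inl
      (Ps L (X 0) (X 1) (i : ℕ) : MvPolynomial (Fin 2) F) : MvPolynomial (Fin 2 ⊕ Fin (p + 1)) F) =
      ((Ps L (s (Sum.inl 0)) (s (Sum.inl 1)) (i : ℕ) : ℕ) : F) := by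
    rw [eval_rename]
    refine (e1 _ _ _).trans ?_
    rw [e2, eval_X, eval_X]
  have h3 := ROQ.map_pq (Nat.castRingHom F) (fun l : Fin p => s (Sum.inr l.succ)) i
  simp only [eq_natCast] at h3
  rw [map_add, map_mul, h2, ROQ.map_pq, eval_X, Nat.cast_add, Nat.cast_mul, h3]
  simp only [eval_X]

private theorem rfoDg_comp {F : Type*} [Field F] {σ : Type*} {n : ℕ} (E : Fin n → MvPolynomial σ F)
    (w : σ → F) (x : Fin n → ℕ) (hx : ∀ i, eval w (E i) = ((x i : ℕ) : F))
    (g : MvPolynomial (Fin n) F) :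
    eval w (aeval E g) = eval (fun i => ((x i : ℕ) : F)) g := by
  induction g using MvPolynomial.induction_on with
  | C a => rw [aeval_C, algebraMap_eq, eval_C, eval_C]
  | add p q hp hq => rw [map_add, map_add, map_add, hp, hq]
  | mul_X p i hp => rw [map_mul, map_mul, map_mul, hp, aeval_X, eval_X, hx]

theorem gridO {K : Type*} [Field K] [CharZero K] {n w p D : ℕ} {g : MvPolynomial (Fin n) K}
    (hg : aeval (ext p fun i : Fin n =>
      (Ps (lev (max n (w + 1))) (X 0) (X 1) (i : ℕ) : MvPolynomial (Fin 2) K)) g ≠ 0)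
    (hD : g.totalDegree ≤ D) :
    ∃ x ∈ pointsO n w p D, eval (fun i => ((x i : ℕ) : K)) g ≠ 0 := by
  obtain ⟨s, hs, hne⟩ := TWX.small_ne hg (B := D * degO n w p) (by
    refine FOR.aeval_le (rfoDg_tot K _) (fun a => ?_) g D (degO n w p) hD _
      (fun v => rfoDg_ext K n w p v)
    show totalDegree (algebraMap K (MvPolynomial _ K) a) = 0
    rw [algebraMap_eq]
    exact totalDegree_C _)
  refine ⟨fun i => Ps (lev (max n (w + 1))) (s (Sum.inl 0)) (s (Sum.inl 1)) (i : ℕ) +
      s (Sum.inr 0) * pq (fun l : Fin p => s (Sum.inr l.succ)) i, ?_, fun h0 => hne ?_⟩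
  · unfold pointsO ptsO
    refine Finset.mem_image.2 ⟨((s (Sum.inl 0), s (Sum.inl 1)), fun t => s (Sum.inr t)), ?_, rfl⟩
    simp only [Finset.mem_product, Finset.mem_range, Fintype.mem_piFinset, Nat.lt_succ_iff]
    exact ⟨⟨hs _, hs _⟩, fun _ => hs _⟩
  · exact (rfoDg_comp _ _ _ (rfoDg_eval K n (lev (max n (w + 1))) p s) g).trans h0

theorem card_ptsO (n L p B : ℕ) : (ptsO n L p B).card ≤ (B + 1) ^ (p + 3) := by
  classical
  unfold ptsO
  refine Finset.card_image_le.trans ?_
  rw [Finset.card_product, Finset.card_product, Fintype.card_piFinset]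
  simp only [Finset.card_range, Finset.prod_const, Finset.card_univ, Fintype.card_fin]
  refine le_of_eq ?_
  ring

end Pool.Agent.RFO
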