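import Pool.Agent.RFO.Defs
import Pool.Agent.ROQ.Base
import Pool.Agent.FOR.Main
import Pool.Agent.TWA.CutA

/-!
MODULE RFO-Gen.  The generator.
-/

set_option autoImplicit false

namespace Pool.Agent.RFO

open MvPolynomial
open Pool.Agent.AOI (Cut Cuts)
open Pool.Agent.FOR (Ps lev)
open Pool.Agent.ROQ (RO ext)

theorem cuts_sub {K : Type*} [Field K] {n w : ℕ} {f : MvPolynomial (Fin n) K} (hf : Cuts w f)
    (a : K) : Cuts (w + 1) (f - C a) := by
  intro S
  rw [sub_eq_add_neg, ← map_neg]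
  refine Pool.Agent.AOI.Cut.add (hf S) ?_
  refine ⟨fun _ => C (-a), fun _ => 1, fun _ => ?_, fun _ => ?_, ?_⟩
  · rw [vars_C]
    exact Finset.empty_subset _
  · rw [vars_one]
    exact Finset.empty_subset _
  · simp

theorem gen_ro {K : Type*} [Field K] [CharZero K] {n w p m : ℕ} (hp : 0 < p)
    (P : Fin m → MvPolynomial (Fin n) K) (hP : ∀ j, P j ≠ 0 ∧ RO p (Cuts w) (P j))
    (g : MvPolynomial (Fin n) K) (hg : g ∣ ∏ j, P j) :
    aeval (ext p fun i : Fin n =>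
      (Ps (lev (max n (w + 1))) (X 0) (X 1) (i : ℕ) : MvPolynomial (Fin 2) K)) g ≠ 0 := by
  refine Pool.Agent.ROQ.ro_prod_hit hp _ (Cuts w) (fun f hf hn c hc => ?_) P hP g hg
  have h1 := Pool.Agent.FOR.gen (f - C c) (sub_ne_zero.2 (hn c)) (cuts_sub hf c)
  apply h1
  rw [map_sub, hc, aeval_C, algebraMap_eq, sub_self]

end Pool.Agent.RFO
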