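import Pool.Agent.RFO.Gen
import Pool.Agent.RFO.Dg
import Pool.Agent.RFO.Bit

/-!
Project RFO: read-once formulas of any depth over read-once programs in any order: the clause for
the hand-in.
-/

set_option autoImplicit false

namespace Pool.Agent.RFO

open MvPolynomial
open Pool.Agent.AOI (Cuts)
open Pool.Agent.ROQ (RO)

theorem main_ro {K : Type*} [Field K] [CharZero K] {n w p m D : ℕ} (hp : 0 < p)
    (P : Fin m → MvPolynomial (Fin n) K) (hP : ∀ j, P j ≠ 0 ∧ RO p (Cuts w) (P j))
    (g : MvPolynomial (Fin n) K) (hg : g ∣ ∏ j, P j) (hD : g.totalDegree ≤ D) :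
    ∃ x ∈ pointsO n w p D, eval (fun i => ((x i : ℕ) : K)) g ≠ 0 :=
  gridO (gen_ro hp P hP g hg) hD

end Pool.Agent.RFO
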